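import Mathlib

set_option autoImplicit false

namespace Pool.Agent.Results.MP_63c1c3_gt.Metr

open Set Filter Topology TopologicalSpace
open scoped ENNReal

variable (X Y : Type*) [TopologicalSpace X] [TopologicalSpace Y]

/-- Separately continuous real functions on `X × Y`. -/
def S := {f : X × Y → ℝ // (∀ x, Continuous fun y => f (x, y)) ∧ ∀ y, Continuous fun x => f (x, y)}

/-- The cross of a point. -/
def cross {X Y : Type*} (c : X × Y) : Set (X × Y) := {p | p.2 = c.2} ∪ {p | p.1 = c.1}

/-- The cross-open topology. -/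
def cro : TopologicalSpace (S X Y) := generateFrom {B | ∃ (c : X × Y) (O : Set (X × Y)) (W : Set ℝ),
  IsOpen O ∧ IsOpen W ∧ B = {s | s.1 '' (closure (O ∩ cross c) ∩ cross c) ⊆ W}}

/-- The extended pseudometric of a cross. -/
noncomputable def dc {X Y : Type*} [TopologicalSpace X] [TopologicalSpace Y] (c : X × Y)
    (s t : S X Y) : ℝ≥0∞ := ⨆ p ∈ cross c, edist (s.1 p) (t.1 p)

/-- The cross-uniform topology. -/
def cru : TopologicalSpace (S X Y) := generateFrom {B | ∃ (c : X × Y) (s : S X Y) (ε : ℝ≥0∞),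
  B = {t | dc c s t < ε}}

/-- Every compact subspace is metrizable. -/
def CompactaMetrizable {Z : Type*} (τ : TopologicalSpace Z) : Prop :=
  ∀ K : Set Z, @IsCompact Z τ K → @MetrizableSpace K (induced Subtype.val τ)

variable {X Y}

lemma main [SeparableSpace X] [SeparableSpace Y] (τ : TopologicalSpace (S X Y))
    (h : ∀ p, Continuous fun s : S X Y => s.1 p) : CompactaMetrizable τ := by
  intro K hK
  obtain ⟨A, hA, dA⟩ := exists_countable_dense X
  obtain ⟨B, hB, dB⟩ := exists_countable_dense Y
  haveI := hA.to_subtype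
  haveI := hB.to_subtype
  haveI := isCompact_iff_compactSpace.1 hK
  let e : K → (A × B → ℝ) := fun s p => s.1.1 (p.1.1, p.2.1)
  have he : Continuous e := continuous_pi fun p => (h _).comp continuous_subtype_val
  have hi : Function.Injective e := by
    intro s t hst
    apply Subtype.ext
    apply Subtype.ext
    funext p
    have h1 : ∀ a ∈ A, (fun y => s.1.1 (a, y)) = fun y => t.1.1 (a, y) := fun a ha =>
      Continuous.ext_on dB (s.1.2.1 a) (t.1.2.1 a) fun b hb => congrFun hst (⟨a, ha⟩, ⟨b, hb⟩)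
    exact congrFun (Continuous.ext_on dA (s.1.2.2 p.2) (t.1.2.2 p.2)
      fun a ha => congrFun (h1 a ha) p.2) p.1
  exact (he.isClosedEmbedding hi).isEmbedding.metrizableSpace

lemma ev_cru (p : X × Y) : Continuous[cru X Y, _] fun s : S X Y => s.1 p := by
  letI := cru X Y
  rw [continuous_iff_continuousAt]
  intro s
  rw [ContinuousAt, EMetric.nhds_basis_eball.tendsto_right_iff]
  intro ε hε
  have ho : IsOpen {t | dc p s t < ε} := isOpen_generateFrom_of_mem ⟨p, s, ε, rfl⟩
  filter_upwards [ho.mem_nhds (show dc p s s < ε by simpa [dc] using hε)] with t ht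
  rw [Metric.mem_eball, edist_comm]
  exact (le_iSup₂ (f := fun q (_ : q ∈ cross p) => edist (s.1 q) (t.1 q)) p (Or.inl rfl)).trans_lt ht

lemma ev_cro [T1Space X] [T1Space Y] (p : X × Y) :
    Continuous[cro X Y, _] fun s : S X Y => s.1 p := by
  letI := cro X Y
  rw [continuous_iff_continuousAt]
  intro s
  rw [ContinuousAt, (nhds_basis_opens _).tendsto_right_iff]
  rintro W ⟨hp, hW⟩
  obtain ⟨C, hC, hc, hCW⟩ := exists_mem_nhds_isClosed_subset (hW.mem_nhds hp)
  have c1 : ContinuousOn s.1 {q | q.2 = p.2} :=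
    (((s.2.2 p.2).comp continuous_fst).continuousOn).congr fun q hq => by
      simp only [Function.comp]; rw [← show q.2 = p.2 from hq]
  have c2 : ContinuousOn s.1 {q | q.1 = p.1} :=
    (((s.2.1 p.1).comp continuous_snd).continuousOn).congr fun q hq => by
      simp only [Function.comp]; rw [← show q.1 = p.1 from hq]
  have hs : ContinuousOn s.1 (cross p) := c1.union_of_isClosed c2
    (isClosed_singleton.preimage continuous_snd) (isClosed_singleton.preimage continuous_fst)
  obtain ⟨O, hO, e⟩ := continuousOn_iff'.1 hs _ (isOpen_interior (s := C))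
  have hpc : p ∈ cross p := Or.inl rfl
  have hpO : p ∈ O ∩ cross p := e ▸ ⟨mem_interior_iff_mem_nhds.2 hC, hpc⟩
  have ho : IsOpen {t : S X Y | t.1 '' (closure (O ∩ cross p) ∩ cross p) ⊆ W} :=
    isOpen_generateFrom_of_mem ⟨p, O, W, hO, hW, rfl⟩
  have hm : s.1 '' (closure (O ∩ cross p) ∩ cross p) ⊆ W := by
    rintro _ ⟨q, ⟨h1, h2⟩, rfl⟩
    have := ((hs q h2).mono (inter_subset_right : O ∩ cross p ⊆ cross p)).mem_closure_image h1
    refine hCW (closure_minimal ?_ hc this)
    rintro _ ⟨r, hr, rfl⟩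
    rw [← e] at hr
    exact interior_subset hr.1
  filter_upwards [ho.mem_nhds hm] with t ht
  exact ht ⟨p, ⟨subset_closure hpO, hpc⟩, rfl⟩

theorem result (X Y : Type*) [TopologicalSpace X] [TopologicalSpace Y] [PolishSpace X]
    [PolishSpace Y] : CompactaMetrizable (cro X Y) ∧ CompactaMetrizable (cru X Y) :=
  ⟨main _ ev_cro, main _ ev_cru⟩

end Pool.Agent.Results.MP_63c1c3_gt.Metr
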